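import Pool.Agent.H51.MFL.S

/-!
# Board mfl, HOC: Hochschild's formula
-/

set_option autoImplicit false

open MvPolynomial

namespace Pool.MFL

theorem mon_ex {U ι : Type} [Ring U] (t : ι → U) (ht : ∀ a b, t a * t b = t b * t a) :
    ∃ mon : (ι →₀ ℕ) → U, mon 0 = 1 ∧ ∀ a B, mon (Finsupp.single a 1 + B) = t a * mon B := by
  letI : CommRing (Algebra.adjoin ℤ (Set.range t)) := Algebra.adjoinCommRingOfComm ℤ (by
    rintro _ ⟨a, rfl⟩ _ ⟨b, rfl⟩
    exact ht a b)
  refine ⟨fun B => ((aeval (R := ℤ) (fun a => (⟨t a, Algebra.subset_adjoin ⟨a, rfl⟩⟩ :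
    Algebra.adjoin ℤ (Set.range t))) (monomial B 1) : Algebra.adjoin ℤ (Set.range t)) : U), ?_, ?_⟩
  · show (((aeval _) (monomial 0 (1 : ℤ)) : Algebra.adjoin ℤ (Set.range t)) : U) = 1
    rw [show (monomial 0 (1 : ℤ) : MvPolynomial ι ℤ) = 1 from rfl, map_one]
    rfl
  · intro a B
    have h : (monomial (Finsupp.single a 1 + B) (1 : ℤ) : MvPolynomial ι ℤ) =
        X a * monomial B 1 := by
      rw [X, monomial_mul, one_mul]
    show (((aeval _) (monomial (Finsupp.single a 1 + B) (1 : ℤ)) :
      Algebra.adjoin ℤ (Set.range t)) : U) = _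
    rw [h, map_mul, aeval_X]
    rfl

section

variable {S ι : Type} [CommRing S]

/-- An additive map acting on the coefficients. -/
noncomputable def EP (E : S →+ S) : MvPolynomial ι S →+ MvPolynomial ι S where
  toFun f := ∑ α ∈ f.support, monomial α (E (coeff α f))
  map_zero' := by simp
  map_add' f g := by
    classical
    have h : ∀ (f : MvPolynomial ι S) (β : ι →₀ ℕ),
        coeff β (∑ α ∈ f.support, monomial α (E (coeff α f))) = E (coeff β f) := by
      intro f β
      rw [coeff_sum]
      simp only [coeff_monomial]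
      rw [Finset.sum_ite_eq']
      split_ifs with h1
      · rfl
      · rw [notMem_support_iff.1 h1, map_zero]
    ext β
    rw [coeff_add, h, h, h, coeff_add, map_add]

theorem coeff_EP (E : S →+ S) (f : MvPolynomial ι S) (β : ι →₀ ℕ) :
    coeff β (EP E f) = E (coeff β f) := by
  classical
  show coeff β (∑ α ∈ f.support, monomial α (E (coeff α f))) = _
  rw [coeff_sum]
  simp only [coeff_monomial]
  rw [Finset.sum_ite_eq']
  split_ifs with h1
  · rfl
  · rw [notMem_support_iff.1 h1, map_zero]

theorem EP_monomial (E : S →+ S) (α : ι →₀ ℕ) (s : S) :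
    EP E (monomial α s) = monomial α (E s) := by
  classical
  ext β
  rw [coeff_EP, coeff_monomial, coeff_monomial]
  split_ifs <;> simp

theorem EP_mul (E : S →+ S) (hE : ∀ s s', E (s * s') = E s * s' + s * E s')
    (f g : MvPolynomial ι S) : EP E (f * g) = EP E f * g + f * EP E g := by
  classical
  ext β
  rw [coeff_EP, coeff_add, coeff_mul, coeff_mul, coeff_mul, map_sum, ← Finset.sum_add_distrib]
  refine Finset.sum_congr rfl fun x _ => ?_
  rw [hE, coeff_EP, coeff_EP]

end

theorem t_hoc (hJ : JACStmt) : HOCStmt := by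
  classical
  intro S U ι _ _ _ p hp hcS hcU H A
  have hp1 := hp.out.one_lt
  obtain ⟨E, hEd⟩ : ∃ E : S →+ S, ⇑E = fun s => ∑ b, A b * H.X b s :=
    ⟨{ toFun := fun s => ∑ b, A b * H.X b s
       map_zero' := by simp
       map_add' := fun x y => by
        rw [← Finset.sum_add_distrib]
        refine Finset.sum_congr rfl fun b _ => ?_
        rw [map_add, mul_add] }, rfl⟩
  have hE : ∀ s s', E (s * s') = E s * s' + s * E s' := by
    intro s s'
    rw [hEd]
    simp only [Derivation.leibniz, smul_eq_mul]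
    rw [Finset.sum_mul, Finset.mul_sum, ← Finset.sum_add_distrib]
    refine Finset.sum_congr rfl fun b _ => ?_
    ring
  obtain ⟨mon, hm0, hm1⟩ := mon_ex H.t H.ht
  have hmn : ∀ a n, mon (Finsupp.single a n) = H.t a ^ n := by
    intro a n
    induction n with
    | zero => rw [Finsupp.single_zero, hm0, pow_zero]
    | succ n ih =>
      have e : Finsupp.single a (n + 1) = Finsupp.single a 1 + Finsupp.single a n := by
        rw [← Finsupp.single_add, add_comm]
      rw [e, hm1, ih, pow_succ']
  obtain ⟨ℓ, hℓ⟩ : ∃ ℓ : MvPolynomial ι S, ℓ = ∑ a, monomial (Finsupp.single a 1) (A a) :=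
    ⟨_, rfl⟩
  obtain ⟨D, hD⟩ : ∃ D : U, D = ∑ a, H.e (A a) * H.t a := ⟨_, rfl⟩
  -- the map `L`
  obtain ⟨L, hL⟩ : ∃ L : MvPolynomial ι S →+ U, ∀ B s, L (monomial B s) = H.e s * mon B := by
    letI : Module S U := Module.compHom U H.e
    refine ⟨((basisMonomials ι S).constr ℤ mon).toAddMonoidHom, fun B s => ?_⟩
    have h1 : (monomial B s : MvPolynomial ι S) = s • (basisMonomials ι S) B := by
      rw [coe_basisMonomials, smul_monomial, smul_eq_mul, mul_one]
    show ((basisMonomials ι S).constr ℤ mon) (monomial B s) = _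
    rw [h1, map_smul, Module.Basis.constr_basis]
    rfl
  obtain ⟨y, hy⟩ : ∃ y : Module.End ℤ (MvPolynomial ι S), y = (EP E).toIntLinearMap := ⟨_, rfl⟩
  have hyf : ∀ f, y f = EP E f := fun f => by rw [hy]; rfl
  have hDL : ∀ f, D * L f = L (ℓ * f + EP E f) := by
    intro f
    refine MvPolynomial.induction_on' (P := fun f => D * L f = L (ℓ * f + EP E f)) f
      (fun B s => ?_) (fun f g hf hg => ?_)
    · rw [hL, EP_monomial, map_add, hL, hℓ, Finset.sum_mul, map_sum, hD, Finset.sum_mul]
      have h2 : ∀ a, H.e (A a) * H.t a * (H.e s * mon B) =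
          L (monomial (Finsupp.single a 1) (A a) * monomial B s) +
            H.e (A a * H.X a s) * mon B := by
        intro a
        rw [monomial_mul, hL, hm1, map_mul, map_mul, ← H.hX a s]
        noncomm_ring
      rw [Finset.sum_congr rfl fun a _ => h2 a, Finset.sum_add_distrib, hEd, map_sum,
        Finset.sum_mul]
    · rw [map_add, mul_add, hf, hg, map_add (EP E), mul_add, ← map_add]
      congr 1
      ring
  haveI : CharP (Module.End ℤ (MvPolynomial ι S)) p := by
    refine charP_of_injective_ringHom (R := MvPolynomial ι S)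
      (f := (Algebra.lmul ℤ (MvPolynomial ι S)).toRingHom) ?_ p
    intro f g h
    have := DFunLike.congr_fun h (1 : MvPolynomial ι S)
    simpa using this
  have hadc : ∀ n : ℕ, (adc y)^[n] (LinearMap.mulLeft ℤ ℓ) =
      LinearMap.mulLeft ℤ ((EP E)^[n] ℓ) := by
    intro n
    induction n with
    | zero => rfl
    | succ n ih =>
      rw [Function.iterate_succ_apply', ih, Function.iterate_succ_apply']
      refine LinearMap.ext fun f => ?_
      show y ((EP E)^[n] ℓ * f) - (EP E)^[n] ℓ * y f = EP E ((EP E)^[n] ℓ) * f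
      rw [hyf, hyf, EP_mul E hE]
      ring
  have hj := hJ (Module.End ℤ (MvPolynomial ι S)) p y (LinearMap.mulLeft ℤ ℓ) (fun n => by
    rw [hadc]
    refine LinearMap.ext fun f => ?_
    show ℓ * ((EP E)^[n] ℓ * f) = (EP E)^[n] ℓ * (ℓ * f)
    ring)
  have hpow : ∀ n : ℕ, L (((y + LinearMap.mulLeft ℤ ℓ) ^ n) 1) = D ^ n := by
    intro n
    induction n with
    | zero =>
      rw [pow_zero, pow_zero, Module.End.one_apply]
      have h1 := hL 0 1
      rw [map_one H.e, hm0, mul_one] at h1
      exact h1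
    | succ n ih =>
      rw [pow_succ', Module.End.mul_apply, pow_succ', ← ih, hDL, LinearMap.add_apply, hyf,
        LinearMap.mulLeft_apply, add_comm]
  rw [← hD, ← hpow p, hj, hadc]
  have hy1 : (y ^ p) 1 = 0 := by
    obtain ⟨q, hq⟩ : ∃ q, p = q + 1 := ⟨p - 1, by omega⟩
    have h1 : EP E (1 : MvPolynomial ι S) = 0 := by
      have h2 := EP_mul E hE (1 : MvPolynomial ι S) 1
      simpa using h2
    rw [hq, pow_succ, Module.End.mul_apply, hyf, h1, map_zero]
  have hz1 : ((LinearMap.mulLeft ℤ ℓ) ^ p) 1 = ℓ ^ p := by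
    rw [LinearMap.pow_mulLeft, LinearMap.mulLeft_apply, mul_one]
  have hit : ∀ n : ℕ, (EP E)^[n] ℓ = ∑ a, monomial (Finsupp.single a 1) (E^[n] (A a)) := by
    intro n
    induction n with
    | zero => exact hℓ
    | succ n ih =>
      rw [Function.iterate_succ_apply', ih, map_sum]
      refine Finset.sum_congr rfl fun a _ => ?_
      rw [EP_monomial, Function.iterate_succ_apply']
  rw [LinearMap.add_apply, LinearMap.add_apply, hy1, hz1, LinearMap.mulLeft_apply, mul_one,
    zero_add, map_add, hit, hℓ, sum_pow_char, map_sum, map_sum]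
  congr 1
  · refine Finset.sum_congr rfl fun a _ => ?_
    rw [monomial_pow, hL, map_pow, Finsupp.smul_single, smul_eq_mul, mul_one, hmn]
  · refine Finset.sum_congr rfl fun a _ => ?_
    rw [hL, hmn, pow_one, hEd]

end Pool.MFL
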