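import Pool.Agent.H51.MFL.S

/-!
# Board mfl, JAC: Jacobson's formula
-/

set_option autoImplicit false

open Polynomial

namespace Pool.MFL

theorem choose_char (U : Type) [Ring U] (p : ℕ) [hp : Fact p.Prime] [CharP U p] (i : ℕ)
    (hi : i < p) : ((p - 1).choose i : U) = (-1) ^ i := by
  induction i with
  | zero => simp
  | succ i ih =>
    have h1 := ih (by omega)
    have h2 : (p.choose (i + 1) : U) = 0 := by
      rw [CharP.cast_eq_zero_iff U p]
      exact hp.out.dvd_choose_self (by omega) hi
    have h3 : p.choose (i + 1) = (p - 1).choose i + (p - 1).choose (i + 1) := by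
      obtain ⟨q, hq⟩ : ∃ q, p = q + 1 := ⟨p - 1, by omega⟩
      rw [hq, Nat.choose_succ_succ]
      rfl
    rw [h3] at h2
    push_cast at h2
    rw [h1] at h2
    rw [pow_succ]
    have : ((p - 1).choose (i + 1) : U) = -(-1) ^ i := by
      rw [← sub_eq_zero]
      rw [← h2]
      abel
    rw [this]
    noncomm_ring

theorem adc_iter (U : Type) [Ring U] (u w : U) (n : ℕ) : (adc u)^[n] w =
    ∑ m ∈ Finset.range (n + 1), u ^ m * ((-1) ^ (n - m) * (w * u ^ (n - m))) * (n.choose m : U) := by
  obtain ⟨L, hL⟩ : ∃ L : Module.End ℤ U, L = LinearMap.mulLeft ℤ u := ⟨_, rfl⟩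
  obtain ⟨R, hR⟩ : ∃ R : Module.End ℤ U, R = -LinearMap.mulRight ℤ u := ⟨_, rfl⟩
  have hc : Commute L R := by
    refine LinearMap.ext fun x => ?_
    rw [hL, hR, Module.End.mul_apply, Module.End.mul_apply]
    simp [mul_assoc]
  have h0 : (adc u)^[n] w = ((L + R) ^ n) w := by
    rw [Module.End.pow_apply]
    congr 1
    funext x
    rw [hL, hR]
    simp [adc, sub_eq_add_neg]
  have hLp : ∀ (m : ℕ) (x : U), (L ^ m) x = u ^ m * x := by
    intro m
    induction m with
    | zero => intro x; simp
    | succ m ih =>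
      intro x
      rw [pow_succ, Module.End.mul_apply, ih, hL, LinearMap.mulLeft_apply, pow_succ, mul_assoc]
  have hRp : ∀ (m : ℕ) (x : U), (R ^ m) x = (-1) ^ m * (x * u ^ m) := by
    intro m
    induction m with
    | zero => intro x; simp
    | succ m ih =>
      intro x
      rw [pow_succ, Module.End.mul_apply, ih, hR, LinearMap.neg_apply, LinearMap.mulRight_apply,
        pow_succ, pow_succ' u]
      simp [mul_assoc]
  rw [h0, hc.add_pow, LinearMap.sum_apply]
  refine Finset.sum_congr rfl fun m _ => ?_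
  rw [Module.End.mul_apply, Module.End.mul_apply]
  have h1 : ((n.choose m : ℕ) : Module.End ℤ U) w = w * (n.choose m : U) := by
    rw [Module.End.natCast_apply, nsmul_eq_mul, (Nat.cast_commute _ w).eq]
  rw [h1, hRp, hLp]
  have h2 : (n.choose m : U) * u ^ (n - m) = u ^ (n - m) * (n.choose m : U) :=
    (Nat.cast_commute _ _).eq
  simp only [mul_assoc]
  rw [h2]

theorem adc_char (U : Type) [Ring U] (p : ℕ) [hp : Fact p.Prime] [CharP U p] (u w : U) :
    (adc u)^[p - 1] w = ∑ m ∈ Finset.range p, u ^ m * w * u ^ (p - 1 - m) := by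
  have hp1 := hp.out.one_lt
  rw [adc_iter]
  have e : p - 1 + 1 = p := by omega
  rw [e]
  refine Finset.sum_congr rfl fun m hm => ?_
  have hm' := Finset.mem_range.1 hm
  rw [choose_char U p m hm']
  have h1 : ∀ (k : ℕ) (x : U), (-1 : U) ^ k * x = x * (-1) ^ k := fun k x =>
    ((Commute.neg_one_left x).pow_left k).eq
  have h2 : ((-1 : U) ^ (p - 1 - m)) * (-1) ^ m = (-1) ^ (p - 1) := by
    rw [← pow_add]
    congr 1
    omega
  have h3 : (-1 : U) ^ (p - 1) = 1 := by
    rcases hp.out.eq_two_or_odd' with h | h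
    · have h4 : ((2 : ℕ) : U) = 0 := by
        rw [← h]
        exact CharP.cast_eq_zero U p
      have h5 : (1 : U) + 1 = 0 := by
        rw [one_add_one_eq_two]
        exact_mod_cast h4
      rw [h]
      simp only [Nat.add_one_sub_one, pow_one]
      exact neg_eq_of_add_eq_zero_left h5
    · exact (Nat.Odd.sub_odd h odd_one).neg_one_pow
  calc u ^ m * ((-1) ^ (p - 1 - m) * (w * u ^ (p - 1 - m))) * (-1) ^ m
      = u ^ m * (w * u ^ (p - 1 - m)) * ((-1) ^ (p - 1 - m) * (-1) ^ m) := by
        rw [h1 (p - 1 - m) (w * u ^ (p - 1 - m))]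
        simp only [mul_assoc]
    _ = u ^ m * w * u ^ (p - 1 - m) := by rw [h2, h3, mul_one, mul_assoc]

theorem coe_zero_of (R : Type) [Ring R] (p : ℕ) [hp : Fact p.Prime] [CharP R p] (c : R) (i : ℕ)
    (h1 : 1 ≤ i) (h2 : i < p) (h : c * (i : R) = 0) : c = 0 := by
  have hu : IsUnit (i : R) := (CharP.isUnit_natCast_iff hp.out).2 (fun hd => by
    have := Nat.le_of_dvd (by omega) hd
    omega)
  obtain ⟨v, hv⟩ := hu
  rw [← hv] at h
  exact (Units.mul_left_eq_zero v).1 h

theorem t_jac : JACStmt := by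
  intro R _ p hp hch y z hz
  have hp1 := hp.out.one_lt
  obtain ⟨u, hu⟩ : ∃ u : R[X], u = C y + X * C z := ⟨_, rfl⟩
  have hdu : derivative u = C z := by
    rw [hu, derivative_add, derivative_C, derivative_mul, derivative_X, derivative_C]
    simp
  have hd : ∀ n : ℕ, derivative (u ^ (n + 1)) =
      ∑ m ∈ Finset.range (n + 1), u ^ m * C z * u ^ (n - m) := by
    intro n
    induction n with
    | zero => simp [hdu]
    | succ n ih =>
      rw [pow_succ, derivative_mul, ih, hdu, Finset.sum_range_succ _ (n + 1), Finset.sum_mul,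
        Nat.sub_self, pow_zero, mul_one]
      congr 1
      refine Finset.sum_congr rfl fun m hm => ?_
      have := Finset.mem_range.1 hm
      have e : n + 1 - m = n - m + 1 := by omega
      rw [e, pow_succ]
      simp only [mul_assoc]
  have hadc : ∀ n : ℕ, (adc u)^[n] (C z) = C ((adc y)^[n] z) := by
    intro n
    induction n with
    | zero => rfl
    | succ n ih =>
      rw [Function.iterate_succ_apply', ih, Function.iterate_succ_apply']
      obtain ⟨w, hw⟩ : ∃ w : R, w = (adc y)^[n] z := ⟨_, rfl⟩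
      have h1 : z * w = w * z := by
        rw [hw]
        exact hz n
      rw [← hw]
      unfold adc
      have h2 : C w * (X * C z) = X * C (w * z) := by
        rw [← mul_assoc, ← X_mul_C w, mul_assoc, ← C_mul]
      rw [hu, add_mul, mul_add, mul_assoc X, ← C_mul, ← C_mul, h1, h2, C_sub, ← C_mul]
      abel
  have hder : derivative (u ^ p) = C ((adc y)^[p - 1] z) := by
    obtain ⟨q, hq⟩ : ∃ q, p = q + 1 := ⟨p - 1, by omega⟩
    have h1 := hd q
    rw [← hadc, adc_char R[X] p u (C z)]
    rw [← hq] at h1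
    rw [h1]
    refine Finset.sum_congr rfl fun m _ => ?_
    have : q - m = p - 1 - m := by omega
    rw [this]
  obtain ⟨f, hf⟩ : ∃ f : R[X], f = u ^ p := ⟨_, rfl⟩
  rw [← hf] at hder
  have hc : ∀ i : ℕ, f.coeff (i + 1) * ((i : R) + 1) = if i = 0 then (adc y)^[p - 1] z else 0 := by
    intro i
    rw [← coeff_derivative, hder, coeff_C]
  have h0 : f.coeff 0 = y ^ p := by
    have : ∀ n : ℕ, (u ^ n).coeff 0 = y ^ n := by
      intro n
      induction n with
      | zero => simp
      | succ n ih => rw [pow_succ, mul_coeff_zero, ih, hu, pow_succ]; simp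
    rw [hf]
    exact this p
  have hdeg : u.natDegree ≤ 1 := by
    rw [hu]
    refine (natDegree_add_le _ _).trans (max_le (by simp) ?_)
    refine (natDegree_mul_le).trans ?_
    have := natDegree_X_le (R := R)
    simpa using this
  have hpp : f.coeff p = z ^ p := by
    have h1 := coeff_pow_of_natDegree_le (m := p) hdeg
    rw [mul_one] at h1
    rw [hf, h1, hu]
    simp
  have h1 : f.coeff 1 = (adc y)^[p - 1] z := by
    have := hc 0
    simpa using this
  have hmid : ∀ i, 2 ≤ i → i < p → f.coeff i = 0 := by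
    intro i hi1 hi2
    obtain ⟨j, rfl⟩ : ∃ j, i = j + 1 := ⟨i - 1, by omega⟩
    have h2 := hc j
    rw [if_neg (by omega)] at h2
    refine coe_zero_of R p _ (j + 1) (by omega) hi2 ?_
    rw [← h2]
    push_cast
    rfl
  have hfd : f.natDegree < p + 1 := by
    have := natDegree_pow_le_of_le p hdeg
    rw [hf]
    omega
  have hev : eval₂ (RingHom.id R) 1 f = (y + z) ^ p := by
    have h2 := map_pow (eval₂RingHom' (RingHom.id R) 1 (fun a => Commute.one_right a)) u p
    have h3 : (eval₂RingHom' (RingHom.id R) (1 : R) (fun a => Commute.one_right a)) u = y + z := by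
      rw [hu, map_add, map_mul]
      simp [eval₂RingHom']
    rw [h3] at h2
    rw [hf]
    exact h2
  rw [← hev, eval₂_eq_sum_range' (RingHom.id R) hfd 1]
  simp only [RingHom.id_apply, one_pow, mul_one]
  rw [Finset.sum_range_succ, hpp]
  obtain ⟨q, hq⟩ : ∃ q, p = q + 2 := ⟨p - 2, by omega⟩
  have h4 : ∑ i ∈ Finset.range p, f.coeff i = y ^ p + (adc y)^[p - 1] z := by
    rw [← h0, ← h1]
    have h5 : ∑ i ∈ Finset.range p, f.coeff i = ∑ i ∈ Finset.range 2, f.coeff i := by
      symm
      refine Finset.sum_subset (Finset.range_mono (by omega)) fun i hi hi2 => ?_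
      rw [Finset.mem_range] at hi hi2
      exact hmid i (by omega) hi
    rw [h5, Finset.sum_range_succ, Finset.sum_range_one]
  rw [h4]
  abel

end Pool.MFL
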